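import Pool.Agent.Helper90.BM.DPM

/-!
# The internal iteration for polynomials (package N4)
-/

set_option autoImplicit false

open Polynomial Matrix Finset Filter

namespace Pool.Agent.Helper90.BM

open Pool.Agent.Helper62.BM

section coef

variable {σ R : Type} [CommRing R]

/-- a derivation applied to the coefficients (additive map) -/
noncomputable def cA (D : Derivation ℤ R R) : MvPolynomial σ R →+ MvPolynomial σ R where
  toFun f := ∑ m ∈ f.support, MvPolynomial.monomial m (D (f.coeff m))
  map_zero' := by rw [MvPolynomial.support_zero, Finset.sum_empty]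
  map_add' f g := by
    classical
    have key : ∀ h : MvPolynomial σ R, ∀ β,
        (∑ m ∈ h.support, MvPolynomial.monomial m (D (h.coeff m))).coeff β = D (h.coeff β) := by
      intro h β
      rw [MvPolynomial.coeff_sum]
      simp only [MvPolynomial.coeff_monomial]
      rw [Finset.sum_ite_eq' h.support β]
      split_ifs with hβ
      · rfl
      · rw [MvPolynomial.notMem_support_iff.1 hβ, map_zero]
    ext β
    rw [MvPolynomial.coeff_add, key, key, key, MvPolynomial.coeff_add, map_add]

theorem coeff_cA (D : Derivation ℤ R R) (f : MvPolynomial σ R) (β : σ →₀ ℕ) :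
    (cA D f).coeff β = D (f.coeff β) := by
  classical
  change (∑ m ∈ f.support, MvPolynomial.monomial m (D (f.coeff m))).coeff β = D (f.coeff β)
  rw [MvPolynomial.coeff_sum]
  simp only [MvPolynomial.coeff_monomial]
  rw [Finset.sum_ite_eq' f.support β]
  split_ifs with hβ
  · rfl
  · rw [MvPolynomial.notMem_support_iff.1 hβ, map_zero]

theorem cA_mul (D : Derivation ℤ R R) (f g : MvPolynomial σ R) :
    cA D (f * g) = f * cA D g + g * cA D f := by
  classical
  ext β
  rw [coeff_cA, MvPolynomial.coeff_add, mul_comm g, MvPolynomial.coeff_mul,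
    MvPolynomial.coeff_mul, MvPolynomial.coeff_mul, map_sum, ← Finset.sum_add_distrib]
  refine Finset.sum_congr rfl fun x _ => ?_
  rw [Derivation.leibniz, coeff_cA, coeff_cA, smul_eq_mul, smul_eq_mul, mul_comm (g.coeff x.2)]

/-- a derivation applied to the coefficients -/
noncomputable def cD (D : Derivation ℤ R R) :
    Derivation ℤ (MvPolynomial σ R) (MvPolynomial σ R) :=
  Derivation.mk' (cA D).toIntLinearMap fun a b => cA_mul D a b

theorem coeff_cD (D : Derivation ℤ R R) (f : MvPolynomial σ R) (β : σ →₀ ℕ) :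
    (cD D f).coeff β = D (f.coeff β) := coeff_cA D f β

theorem cD_C (D : Derivation ℤ R R) (c : R) :
    cD (σ := σ) D (MvPolynomial.C c) = MvPolynomial.C (D c) := by
  classical
  ext β
  rw [coeff_cD, MvPolynomial.coeff_C, MvPolynomial.coeff_C]
  split_ifs
  · rfl
  · rw [map_zero]

theorem cD_X (D : Derivation ℤ R R) (s : σ) :
    cD (σ := σ) D (MvPolynomial.X s) = 0 := by
  classical
  ext β
  rw [coeff_cD, MvPolynomial.coeff_X, MvPolynomial.coeff_zero]
  split_ifs
  · rw [Derivation.map_one_eq_zero]
  · rw [map_zero]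

/-- the derivation with given values -/
noncomputable def TD (D : Derivation ℤ R R) (v : σ → MvPolynomial σ R) :
    Derivation ℤ (MvPolynomial σ R) (MvPolynomial σ R) :=
  cD D + (MvPolynomial.mkDerivation R v).restrictScalars ℤ

theorem TD_C (D : Derivation ℤ R R) (v : σ → MvPolynomial σ R) (c : R) :
    TD D v (MvPolynomial.C c) = MvPolynomial.C (D c) := by
  rw [TD, Derivation.add_apply, cD_C, Derivation.restrictScalars_apply]
  have : MvPolynomial.mkDerivation R v (MvPolynomial.C c) = 0 :=
    Derivation.map_algebraMap _ c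
  rw [this, add_zero]

theorem TD_X (D : Derivation ℤ R R) (v : σ → MvPolynomial σ R) (s : σ) :
    TD D v (MvPolynomial.X s) = v s := by
  rw [TD, Derivation.add_apply, cD_X, Derivation.restrictScalars_apply,
    MvPolynomial.mkDerivation_X, zero_add]

theorem nat {S : Type} [CommRing S] (φ : R →+* S)
    (T : Derivation ℤ (MvPolynomial σ R) (MvPolynomial σ R))
    (T' : Derivation ℤ (MvPolynomial σ S) (MvPolynomial σ S))
    (hC : ∀ c, MvPolynomial.map φ (T (MvPolynomial.C c)) = T' (MvPolynomial.C (φ c)))
    (hX : ∀ s, MvPolynomial.map φ (T (MvPolynomial.X s)) = T' (MvPolynomial.X s))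
    (P : MvPolynomial σ R) : MvPolynomial.map φ (T P) = T' (MvPolynomial.map φ P) := by
  induction P using MvPolynomial.induction_on with
  | C a => rw [hC, MvPolynomial.map_C]
  | add P Q hP hQ => rw [map_add, map_add, hP, hQ, map_add, map_add]
  | mul_X P s hP =>
    rw [Derivation.leibniz, map_add, smul_eq_mul, smul_eq_mul, map_mul, map_mul, hP, hX,
      map_mul, MvPolynomial.map_X, Derivation.leibniz, smul_eq_mul, smul_eq_mul]

end coef

section lift

variable (U : Ultrafilter ℕ) {F : ℕ → Type} [∀ i, Field (F i)] {σ : Type}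

theorem mapP_eq_zero {P : MvPolynomial σ (∀ i, F i)} :
    MvPolynomial.map (mk U (F := F)) P = 0 ↔
      ∀ᶠ i in (U : Filter ℕ), MvPolynomial.map (Pi.evalRingHom F i) P = 0 := by
  constructor
  · intro h
    have h1 : ∀ m ∈ P.support, ∀ᶠ i in (U : Filter ℕ), P.coeff m i = 0 := by
      intro m _
      rw [← mk_eq_zero, ← MvPolynomial.coeff_map, h, MvPolynomial.coeff_zero]
    filter_upwards [(Filter.eventually_all_finset P.support).2 h1] with i hi
    ext m
    rw [MvPolynomial.coeff_map, MvPolynomial.coeff_zero]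
    by_cases hm : m ∈ P.support
    · exact hi m hm
    · rw [MvPolynomial.notMem_support_iff.1 hm, map_zero]
  · intro h
    ext m
    rw [MvPolynomial.coeff_map, MvPolynomial.coeff_zero, mk_eq_zero]
    filter_upwards [h] with i hi
    have := congrArg (fun Q => MvPolynomial.coeff m Q) hi
    simp only [MvPolynomial.coeff_map, MvPolynomial.coeff_zero] at this
    exact this

theorem mapP_eq {P Q : MvPolynomial σ (∀ i, F i)} :
    MvPolynomial.map (mk U (F := F)) P = MvPolynomial.map (mk U (F := F)) Q ↔
      ∀ᶠ i in (U : Filter ℕ), MvPolynomial.map (Pi.evalRingHom F i) P =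
        MvPolynomial.map (Pi.evalRingHom F i) Q := by
  rw [← sub_eq_zero, ← map_sub, mapP_eq_zero]
  simp only [map_sub, sub_eq_zero]

/-- the derivation of the product ring -/
noncomputable def pD (D : ∀ i, Der (F i)) : Derivation ℤ (∀ i, F i) (∀ i, F i) :=
  Derivation.mk' (AddMonoidHom.toIntLinearMap (AddMonoidHom.mk' (fun x i => D i (x i)) (by
    intro a b
    funext i
    simp))) (by
    intro a b
    funext i
    change D i (a i * b i) = a i * D i (b i) + b i * D i (a i)
    rw [Derivation.leibniz, smul_eq_mul, smul_eq_mul])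

theorem pD_apply (D : ∀ i, Der (F i)) (x : ∀ i, F i) : pD D x = fun i => D i (x i) := rfl

end lift

/-- Package N4. -/
theorem dpp : S_DPP := by
  intro U F _ p _ _ D hD m n B T hC hX W hfg hW
  obtain ⟨r, w, hw⟩ := Submodule.fg_iff_exists_fin_generating_family.1 hfg
  have hwW : ∀ j, w j ∈ W := fun j => by
    rw [← hw]; exact Submodule.subset_span (Set.mem_range_self j)
  choose w' hw' using fun j => MvPolynomial.map_surjective (σ := Fin m × Fin n)
    (mk U (F := F)) (mk_surj U) (w j)
  have hc : ∀ j, ∃ c : Fin r → UP U F, ∑ k, c k • w k = T (w j) := by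
    intro j
    have h1 := hW (w j) (hwW j)
    rw [← hw] at h1
    exact Submodule.mem_span_range_iff_exists_fun (R := UP U F).1 h1
  choose c hc using hc
  choose c' hc' using fun j k => mk_surj U (c j k)
  -- the derivation over the product ring
  let v : Fin m × Fin n → MvPolynomial (Fin m × Fin n) (∀ i, F i) := fun s =>
    ∑ l, MvPolynomial.X (s.1, l) * MvPolynomial.C (fun i => B i l s.2)
  let Th := TD (pD D) v
  have hTh : ∀ P, MvPolynomial.map (mk U (F := F)) (Th P) =
      T (MvPolynomial.map (mk U (F := F)) P) := by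
    intro P
    refine nat (mk U (F := F)) Th T (fun c => ?_) (fun s => ?_) P
    · rw [TD_C, MvPolynomial.map_C, hC, der_mk]
      rfl
    · rw [TD_X, hX]
      simp only [v, map_sum, map_mul, MvPolynomial.map_X, MvPolynomial.map_C]
      rfl
  let vi : ∀ i, Fin m × Fin n → MvPolynomial (Fin m × Fin n) (F i) := fun i s =>
    ∑ l, MvPolynomial.X (s.1, l) * MvPolynomial.C (B i l s.2)
  let Ti := fun i => TD (D i) (vi i)
  have hTi : ∀ i P, MvPolynomial.map (Pi.evalRingHom F i) (Th P) =
      Ti i (MvPolynomial.map (Pi.evalRingHom F i) P) := by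
    intro i P
    refine nat (Pi.evalRingHom F i) Th (Ti i) (fun c => ?_) (fun s => ?_) P
    · rw [TD_C, MvPolynomial.map_C, TD_C]
      rfl
    · rw [TD_X, TD_X]
      simp only [v, vi, map_sum, map_mul, MvPolynomial.map_X, MvPolynomial.map_C]
      rfl
  have hev : ∀ j, ∀ᶠ i in (U : Filter ℕ),
      Ti i (MvPolynomial.map (Pi.evalRingHom F i) (w' j)) =
        ∑ k, c' j k i • MvPolynomial.map (Pi.evalRingHom F i) (w' k) := by
    intro j
    have h1 : MvPolynomial.map (mk U (F := F)) (Th (w' j)) =
        MvPolynomial.map (mk U (F := F)) (∑ k, MvPolynomial.C (c' j k) * w' k) := by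
      rw [hTh, hw', ← hc j, map_sum]
      refine Finset.sum_congr rfl fun k _ => ?_
      rw [map_mul, MvPolynomial.map_C, hc', hw', MvPolynomial.smul_eq_C_mul]
    rw [mapP_eq] at h1
    filter_upwards [h1] with i hi
    rw [← hTi, hi, map_sum]
    refine Finset.sum_congr rfl fun k _ => ?_
    rw [map_mul, MvPolynomial.map_C, MvPolynomial.smul_eq_C_mul]
    rfl
  -- the operator over the product ring
  let O : MvPolynomial (Fin m × Fin n) (∀ i, F i) → MvPolynomial (Fin m × Fin n) (∀ i, F i) :=
    fun G => ∑ s : Fin m × Fin n,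
      (∑ l, MvPolynomial.X (s.1, l) *
        MvPolynomial.C (fun i => pcv (D i) (B i) (p i) l s.2)) * MvPolynomial.pderiv s G
  have hO1 : ∀ i G, MvPolynomial.map (Pi.evalRingHom F i) (O G) =
      (⇑(Ti i))^[p i] (MvPolynomial.map (Pi.evalRingHom F i) G) := by
    intro i G
    rw [poly (F i) (p i) (D i) (hD i) m n (B i) (Ti i) (fun c => TD_C _ _ c)
      (fun s => TD_X _ _ s)]
    simp only [O, map_sum, map_mul, MvPolynomial.map_X, MvPolynomial.map_C,
      MvPolynomial.pderiv_map]
    rfl
  have hO2 : ∀ G, MvPolynomial.map (mk U (F := F)) (O G) = ∑ s : Fin m × Fin n,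
      (∑ l, MvPolynomial.X (s.1, l) *
        MvPolynomial.C (mkM U (fun i => pcv (D i) (B i) (p i)) l s.2)) *
        MvPolynomial.pderiv s (MvPolynomial.map (mk U (F := F)) G) := by
    intro G
    simp only [O, map_sum, map_mul, MvPolynomial.map_X, MvPolynomial.map_C,
      MvPolynomial.pderiv_map]
    rfl
  have hev2 : ∀ᶠ i in (U : Filter ℕ), ∀ j, ∃ e : Fin r → F i,
      MvPolynomial.map (Pi.evalRingHom F i) (O (w' j)) =
        ∑ k, e k • MvPolynomial.map (Pi.evalRingHom F i) (w' k) := by
    filter_upwards [Filter.eventually_all.2 hev] with i hi j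
    obtain ⟨e, he⟩ := inner (D i) (Ti i) (map_zero _) (map_add _) (fun c x => by
      rw [MvPolynomial.smul_eq_C_mul, Derivation.leibniz, TD_C, smul_eq_mul, smul_eq_mul,
        MvPolynomial.smul_eq_C_mul, MvPolynomial.smul_eq_C_mul]
      ring)
      (fun j => MvPolynomial.map (Pi.evalRingHom F i) (w' j)) (fun j k => c' j k i) hi (p i) j
    exact ⟨e, by rw [hO1, he]⟩
  classical
  let e : Fin r → Fin r → ∀ i, F i := fun j k i =>
    if h : ∀ j, ∃ e : Fin r → F i,
      MvPolynomial.map (Pi.evalRingHom F i) (O (w' j)) =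
        ∑ k, e k • MvPolynomial.map (Pi.evalRingHom F i) (w' k)
    then (h j).choose k else 0
  have he : ∀ j, ∀ᶠ i in (U : Filter ℕ),
      MvPolynomial.map (Pi.evalRingHom F i) (O (w' j)) =
        MvPolynomial.map (Pi.evalRingHom F i) (∑ k, MvPolynomial.C (e j k) * w' k) := by
    intro j
    filter_upwards [hev2] with i hi
    have h1 : ∀ k, e j k i = (hi j).choose k := fun k => by
      simp only [e]
      rw [dif_pos hi]
    have h2 : ∀ k, MvPolynomial.map (Pi.evalRingHom F i) (MvPolynomial.C (e j k) * w' k) =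
        (hi j).choose k • MvPolynomial.map (Pi.evalRingHom F i) (w' k) := by
      intro k
      rw [map_mul, MvPolynomial.map_C, MvPolynomial.smul_eq_C_mul, ← h1 k]
      rfl
    exact ((hi j).choose_spec).trans ((map_sum (MvPolynomial.map (Pi.evalRingHom F i))
      (fun k => MvPolynomial.C (e j k) * w' k) Finset.univ).trans
      (Finset.sum_congr rfl fun k _ => h2 k)).symm
  have hgen : ∀ j, (∑ s : Fin m × Fin n,
      (∑ l, MvPolynomial.X (s.1, l) *
        MvPolynomial.C (mkM U (fun i => pcv (D i) (B i) (p i)) l s.2)) *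
        MvPolynomial.pderiv s (w j)) ∈ W := by
    intro j
    have h1 := (mapP_eq U).2 (he j)
    rw [hO2, hw', map_sum] at h1
    rw [h1]
    apply Submodule.sum_mem
    intro k _
    rw [map_mul, MvPolynomial.map_C, hw', ← MvPolynomial.smul_eq_C_mul]
    exact Submodule.smul_mem _ _ (hwW k)
  intro G hG
  rw [← hw] at hG
  refine Submodule.span_induction (p := fun G _ => (∑ s : Fin m × Fin n,
      (∑ l, MvPolynomial.X (s.1, l) *
        MvPolynomial.C (mkM U (fun i => pcv (D i) (B i) (p i)) l s.2)) *
        MvPolynomial.pderiv s G) ∈ W) ?_ ?_ ?_ ?_ hG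
  · rintro _ ⟨j, rfl⟩
    exact hgen j
  · simp only [map_zero, mul_zero, Finset.sum_const_zero]
    exact Submodule.zero_mem _
  · intro x y _ _ hx hy
    simp only [map_add, mul_add, Finset.sum_add_distrib]
    exact Submodule.add_mem _ hx hy
  · intro a x _ hx
    have h1 : ∀ s, MvPolynomial.pderiv s (a • x) = a • MvPolynomial.pderiv s x := fun s =>
      Derivation.map_smul _ a x
    have h2 : (∑ s : Fin m × Fin n,
        (∑ l, MvPolynomial.X (s.1, l) *
          MvPolynomial.C (mkM U (fun i => pcv (D i) (B i) (p i)) l s.2)) *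
          MvPolynomial.pderiv s (a • x)) = a • ∑ s : Fin m × Fin n,
        (∑ l, MvPolynomial.X (s.1, l) *
          MvPolynomial.C (mkM U (fun i => pcv (D i) (B i) (p i)) l s.2)) *
          MvPolynomial.pderiv s x := by
      rw [Finset.smul_sum]
      refine Finset.sum_congr rfl fun s _ => ?_
      rw [h1, mul_smul_comm]
    rw [h2]
    exact Submodule.smul_mem _ _ hx

end Pool.Agent.Helper90.BM
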