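import Pool.Agent.Helper90.BM.Spread

/-!
# The result at the places of a number field (`S_FewK`, from `S_FewG`)
-/

set_option autoImplicit false

open Polynomial Matrix Finset NumberField IsDedekindDomain

namespace Pool.Agent.Helper90.BM

open Pool.Agent.Helper62.BM

/-- the Hasse-Witt matrix and `YX` -/
def S_A1 : Prop :=
  ∀ (k : Type) [Field k] (p : ℕ) [Fact p.Prime] [CharP k p], p ≠ 2 → ∀ (g : ℕ)
    (a : Fin (2 * g) → k) (c s : k), c ^ p = c → c ≠ 0 →
    (∀ i j : Fin g, hasseWitt p g ((X - C s) * (C c * ∏ j, (X - C (a j)))) i j =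
      (YX p g a i (lo j)).eval s) ∨
    (∀ i j : Fin g, hasseWitt p g ((X - C s) * (C c * ∏ j, (X - C (a j)))) i j =
      -(YX p g a i (lo j)).eval s)

/-- the product of the conditions -/
def S_A2 : Prop :=
  ∀ (A : Type) [CommRing A] [IsDomain A] (g : ℕ) (G : MvPolynomial (Fin g × Fin g) A[X]),
    G ≠ 0 → ∃ H : MvPolynomial (Fin g × Fin g) A[X], H ≠ 0 ∧ ∀ (k : Type) [Field k]
    (ψ : A[X] →+* k) (W : Fin g × Fin g → k), ((Matrix.of fun i j => W (i, j)).det = 0 ∨
      MvPolynomial.eval₂ ψ W G = 0 ∨ MvPolynomial.eval₂ ψ (fun u => -W u) G = 0) →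
      MvPolynomial.eval₂ ψ W H = 0

theorem hasseWitt_map {R S : Type} [CommRing R] [CommRing S] (φ : R →+* S) (q g : ℕ)
    (F : R[X]) (i j : Fin g) :
    φ (hasseWitt q g F i j) = hasseWitt q g (F.map φ) i j := by
  simp only [hasseWitt, Matrix.of_apply]
  rw [← Polynomial.coeff_map, Polynomial.map_mul, Polynomial.map_pow, Polynomial.map_pow,
    Polynomial.map_X]

section roots

variable {K : Type} [Field K] [NumberField K]

/-- the zeros of `f` generate a finitely generated ring -/
theorem roots (g : ℕ) (f : (𝓞 K)[X]) (hf : f.natDegree = 2 * g)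
    (hsep : (f.map (algebraMap (𝓞 K) K)).Separable) :
    ∃ (A : Subalgebra (𝓞 K) (AlgebraicClosure K)) (a : Fin (2 * g) → A), A.FG ∧
      Function.Injective a ∧ f.map (algebraMap (𝓞 K) A) =
        C (algebraMap (𝓞 K) A f.leadingCoeff) * ∏ j, (X - C (a j)) := by
  classical
  set E' := AlgebraicClosure K with hE'
  set F : E'[X] := (f.map (algebraMap (𝓞 K) K)).map (algebraMap K E') with hF
  have hinj : Function.Injective (algebraMap (𝓞 K) K) := IsFractionRing.injective (𝓞 K) K
  have hdeg : F.natDegree = 2 * g := by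
    rw [hF, natDegree_map, natDegree_map_eq_of_injective hinj, hf]
  have hF0 : F.Separable := hsep.map
  have hsplit : F.Splits := IsAlgClosed.splits F
  have hcard : F.roots.card = 2 * g := by
    rw [← hdeg]
    exact (splits_iff_card_roots.1 hsplit)
  have hnd : F.roots.Nodup := nodup_roots hF0
  obtain ⟨S, hS⟩ : ∃ S : Finset E', S.val = F.roots := ⟨⟨F.roots, hnd⟩, rfl⟩
  have hScard : S.card = 2 * g := by
    rw [Finset.card_def, hS, hcard]
  let e : Fin (2 * g) ≃ S := (S.equivFinOfCardEq hScard).symm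
  let A := Algebra.adjoin (𝓞 K) (S : Set E')
  have hmem : ∀ j, ((e j : S) : E') ∈ A := fun j =>
    Algebra.subset_adjoin (Finset.mem_coe.2 (e j).2)
  have hprod : F = C F.leadingCoeff * ∏ j, (X - C ((e j : S) : E')) := by
    have h1 := hsplit.eq_prod_roots
    have h2 : (F.roots.map fun a => X - C a).prod = ∏ j, (X - C ((e j : S) : E')) := by
      rw [← hS]
      change ∏ a ∈ S, (X - C a) = _
      rw [← Finset.prod_coe_sort S (fun a => X - C a)]
      exact (Equiv.prod_comp e fun x : S => (X - C (x : E'))).symm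
    rw [h2] at h1
    exact h1
  refine ⟨A, fun j => ⟨(e j : S), hmem j⟩, Subalgebra.fg_adjoin_finset S, ?_, ?_⟩
  · intro i j hij
    have h1 : ((e i : S) : E') = ((e j : S) : E') := congrArg (fun z : A => (z : E')) hij
    exact e.injective (Subtype.ext h1)
  · have hval : Function.Injective (A.val : A →+* E') := Subtype.val_injective
    apply map_injective _ hval
    have h1 : (A.val : A →+* E').comp (algebraMap (𝓞 K) A) =
        (algebraMap K E').comp (algebraMap (𝓞 K) K) := by
      ext x
      rfl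
    rw [Polynomial.map_map, h1, ← Polynomial.map_map, ← hF, Polynomial.map_mul,
      Polynomial.map_C, Polynomial.map_prod]
    simp only [Polynomial.map_sub, Polynomial.map_X, Polynomial.map_C]
    have h2 : (A.val : A →+* E') (algebraMap (𝓞 K) A f.leadingCoeff) = F.leadingCoeff := by
      have h3 := RingHom.congr_fun h1 f.leadingCoeff
      rw [RingHom.comp_apply] at h3
      rw [h3, RingHom.comp_apply, hF, leadingCoeff_map, leadingCoeff_map_of_injective hinj]
    rw [h2]
    exact hprod

end roots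

/-- `S_FewK` from `S_FewG`. -/
theorem fewK (hA1 : S_A1) (hA2 : S_A2) (hG : S_FewG) : S_FewK := by
  classical
  intro K _ _ g hg f φ hf hsep hφ G hG0 ε hε
  obtain ⟨A, a, hFG, hainj, hfact⟩ := roots g f hf hsep
  have hval : Function.Injective (A.val : A →+* AlgebraicClosure K) := Subtype.val_injective
  have halg : ∀ x : 𝓞 K, ((algebraMap (𝓞 K) A x : A) : AlgebraicClosure K) =
      algebraMap K (AlgebraicClosure K) (algebraMap (𝓞 K) K x) := fun x => rfl
  have h1 : Function.Injective (algebraMap (𝓞 K) A) := by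
    intro x y hxy
    have h2 := congrArg (fun z : A => (z : AlgebraicClosure K)) hxy
    simp only [halg] at h2
    exact (IsFractionRing.injective (𝓞 K) K) ((algebraMap K (AlgebraicClosure K)).injective h2)
  have h2 : Algebra.FiniteType (𝓞 K) A := (Subalgebra.fg_iff_finiteType A).mp hFG
  have h3 : Algebra.IsAlgebraic (𝓞 K) A := by
    have h4 : Algebra.IsAlgebraic (𝓞 K) (AlgebraicClosure K) :=
      (IsFractionRing.comap_isAlgebraic_iff (A := 𝓞 K) (K := K) (C := AlgebraicClosure K)).mpr
        inferInstance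
    refine ⟨fun x => ?_⟩
    exact (isAlgebraic_algHom_iff A.val Subtype.val_injective).mp
      (h4.isAlgebraic (x : AlgebraicClosure K))
  have hCZ : CharZero A := charZero_of_injective_algebraMap h1
  have hf0 : f ≠ 0 := by
    intro h
    rw [h, natDegree_zero] at hf
    omega
  have hc0 : f.leadingCoeff ≠ 0 := leadingCoeff_ne_zero.2 hf0
  have hφ0 : φ ≠ 0 := by
    intro h
    rw [h, natDegree_zero] at hφ
    omega
  have hl0 : φ.leadingCoeff ≠ 0 := leadingCoeff_ne_zero.2 hφ0
  have hGA0 : MvPolynomial.map (mapRingHom (algebraMap (𝓞 K) A)) G ≠ 0 := by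
    intro h
    apply hG0
    apply MvPolynomial.map_injective (mapRingHom (algebraMap (𝓞 K) A)) (map_injective _ h1)
    rw [h, map_zero]
  obtain ⟨H, hH0, hH⟩ := hA2 A g _ hGA0
  set d := φ.natDegree with hd
  have hdpos : (0 : ℝ) < d := by exact_mod_cast hφ
  obtain ⟨p₀, a₀, ha₀, hfew⟩ := hG g hg A a hainj H hH0 (ε / (2 * d)) (by positivity)
  set D : A := ∏ u ∈ (univ : Finset (Fin (2 * g) × Fin (2 * g))).filter (fun u => u.1 ≠ u.2),
    (a u.1 - a u.2) with hD
  have hD0 : D ≠ 0 := by
    rw [hD, Finset.prod_ne_zero_iff]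
    intro u hu
    rw [Finset.mem_filter] at hu
    exact sub_ne_zero.2 fun h => hu.2 (hainj h)
  have hcA : algebraMap (𝓞 K) A f.leadingCoeff ≠ 0 := by
    intro h
    exact hc0 (h1 (by rw [h, map_zero]))
  set b : A := a₀ * algebraMap (𝓞 K) A f.leadingCoeff * D with hb
  have hb0 : b ≠ 0 := mul_ne_zero (mul_ne_zero ha₀ hcA) hD0
  have hfin := spread (𝓞 K) A h1 h2 h3 b hb0
  obtain ⟨N, hN⟩ := exists_nat_gt (4 * g * d / ε : ℝ)
  have h20 : (2 : 𝓞 K) ≠ 0 := two_ne_zero
  refine ((((hfin.union (finite_mem (K := K) φ.leadingCoeff hl0)).union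
    (finite_mem (K := K) 2 h20)).union (finite_le (K := K) p₀)).union
    (finite_le (K := K) N)).subset ?_
  rintro v ⟨hv, hv'⟩
  by_contra hno
  simp only [Set.mem_union, Set.mem_ofPred_eq, not_or, not_not, not_le] at hno
  obtain ⟨⟨⟨⟨⟨k, hk, χ, hχ, hker⟩, hlv⟩, h2v⟩, hp0⟩, hpN⟩ := hno
  rw [lt_iff_not_ge] at hv'
  apply hv'
  set p := Ideal.absNorm v.asIdeal with hp
  have hFp : Fact p.Prime := ⟨hv⟩
  have hcharκ := charP_res v hv
  rw [← hp] at hcharκ
  have hchar : CharP k p := by
    rw [CharP.charP_iff_prime_eq_zero hv]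
    have h5 : (p : 𝓞 K) ∈ v.asIdeal := Ideal.absNorm_mem v.asIdeal
    rw [← hker, RingHom.mem_ker, map_natCast] at h5
    exact h5
  have hunits : v.asIdeal.primeCompl ≤
      Submonoid.comap (χ.comp (algebraMap (𝓞 K) A)) (IsUnit.submonoid k) := fun z hz => by
    refine IsUnit.mk0 _ fun h0 => hz ?_
    rw [← hker]
    exact h0
  set κ := v.asIdeal.ResidueField with hκ
  set ι' : κ →+* k := Ideal.ResidueField.lift v.asIdeal
    (χ.comp (algebraMap (𝓞 K) A)) hker.ge hunits with hι
  have hcomp : ι'.comp (algebraMap (𝓞 K) κ) = χ.comp (algebraMap (𝓞 K) A) := by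
    ext z
    exact Ideal.ResidueField.lift_algebraMap v.asIdeal (χ.comp (algebraMap (𝓞 K) A)) hker.ge
      hunits z
  have hcn := card_res v
  rw [← hp] at hcn
  have hfinite : Finite κ := Nat.finite_of_card_ne_zero (by rw [hcn]; exact hv.ne_zero)
  have : Fintype κ := Fintype.ofFinite _
  rw [Nat.card_eq_fintype_card] at hcn
  have hpow : ∀ t : κ, t ^ p = t := fun t => by
    rw [← hcn]
    exact FiniteField.pow_card t
  have hp2 : p ≠ 2 := by
    intro h
    apply h2v
    have h5 : (p : 𝓞 K) ∈ v.asIdeal := Ideal.absNorm_mem v.asIdeal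
    rw [h] at h5
    exact_mod_cast h5
  -- consequences of `χ b ≠ 0`
  have hχ1 : χ a₀ ≠ 0 := fun h => hχ (by rw [hb, map_mul, map_mul, h, zero_mul, zero_mul])
  have hχ2 : χ (algebraMap (𝓞 K) A f.leadingCoeff) ≠ 0 := fun h =>
    hχ (by rw [hb, map_mul, map_mul, h, mul_zero, zero_mul])
  have hχ3 : Function.Injective fun j => χ (a j) := by
    intro i j hij
    by_contra hne
    apply hχ
    have h5 : χ D = 0 := by
      rw [hD, map_prod]
      exact Finset.prod_eq_zero (i := (i, j)) (by simp [hne]) (by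
        simp only [map_sub]
        exact sub_eq_zero.2 hij)
    rw [hb, map_mul, h5, mul_zero]
  set c : k := χ (algebraMap (𝓞 K) A f.leadingCoeff) with hc
  have hcι : c = ι' (algebraMap (𝓞 K) κ f.leadingCoeff) := (RingHom.congr_fun hcomp _).symm
  have hcp : c ^ p = c := by rw [hcι, ← map_pow, hpow]
  set fκ : κ[X] := f.map (algebraMap (𝓞 K) κ) with hfκ
  have hfk : fκ.map ι' = C c * ∏ j, (X - C (χ (a j))) := by
    rw [hfκ, Polynomial.map_map, hcomp, ← Polynomial.map_map, hfact, Polynomial.map_mul,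
      Polynomial.map_C, Polynomial.map_prod]
    simp only [Polynomial.map_sub, Polynomial.map_X, Polynomial.map_C]
    rfl
  have hlc : algebraMap (𝓞 K) κ f.leadingCoeff ≠ 0 := by
    intro h
    apply hχ2
    rw [hcι, h, map_zero]
  have hfdeg : fκ.natDegree = 2 * g := by
    rw [hfκ, natDegree_map_of_leadingCoeff_ne_zero _ hlc, hf]
  have hfκ0 : fκ ≠ 0 := by
    intro h
    rw [h, natDegree_zero] at hfdeg
    omega
  have hfsep : fκ.Separable := by
    rw [← Polynomial.separable_map ι', hfk]
    exact Separable.unit_mul (isUnit_C.2 (isUnit_iff_ne_zero.2 hχ2))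
      (separable_prod_X_sub_C_iff.2 hχ3)
  -- the bad members
  set r : ℕ → κ := fun t => algebraMap (𝓞 K) κ (φ.eval (t : 𝓞 K)) with hr
  obtain ⟨Z2, hZ2⟩ : ∃ Z2 : Finset κ, Z2 =
    univ.filter (fun s => MvPolynomial.eval₂ ((evalRingHom (ι' s)).comp (mapRingHom χ))
      (fun u : Fin g × Fin g => (YX p g (fun j => χ (a j)) u.1 (lo u.2)).eval (ι' s)) H = 0) :=
    ⟨_, rfl⟩
  set Z : Finset κ := univ.filter (fun s => fκ.eval s = 0) ∪ Z2 with hZ
  have hZcard : (Z.card : ℝ) ≤ 2 * g + ε / (2 * d) * p := by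
    have e1 : (univ.filter (fun s => fκ.eval s = 0)).card ≤ 2 * g := by
      have e2 : univ.filter (fun s => fκ.eval s = 0) ⊆ fκ.roots.toFinset := by
        intro s hs
        rw [Finset.mem_filter] at hs
        rw [Multiset.mem_toFinset, mem_roots hfκ0]
        exact hs.2
      refine (Finset.card_le_card e2).trans ?_
      refine (Multiset.toFinset_card_le _).trans ?_
      rw [← hfdeg]
      exact card_roots' fκ
    have e3 := hfew p k χ hp0.le hχ1 (Z2.image ι') (by
        intro t ht
        obtain ⟨s, hs, rfl⟩ := Finset.mem_image.1 ht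
        rw [hZ2, Finset.mem_filter] at hs
        exact ⟨by rw [← map_pow, hpow], hs.2⟩)
    rw [Finset.card_image_of_injective _ ι'.injective] at e3
    have e4 : (Z.card : ℝ) ≤ ((univ.filter (fun s => fκ.eval s = 0)).card : ℝ) + Z2.card := by
      exact_mod_cast Finset.card_union_le _ _
    refine e4.trans (add_le_add ?_ e3)
    exact_mod_cast e1
  have hbad : ∀ t : ℕ, ¬ (GoodOrd g (2 * g + 1) (memb f φ t) v ∧
      Avoids g G (φ.eval (t : 𝓞 K)) (memb f φ t) v) → r t ∈ Z := by
    intro t ht
    by_contra hcon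
    apply ht
    rw [hZ, Finset.mem_union, hZ2, Finset.mem_filter, Finset.mem_filter, not_or, not_and,
      not_and] at hcon
    have hc1 : fκ.eval (r t) ≠ 0 := hcon.1 (Finset.mem_univ _)
    have hc2 := hcon.2 (Finset.mem_univ _)
    have hrd : rd v (memb f φ t) = (X - C (r t)) * fκ := by
      unfold rd memb
      rw [Polynomial.map_mul, Polynomial.map_sub, Polynomial.map_X, Polynomial.map_C]
    have hrk : (rd v (memb f φ t)).map ι' =
        (X - C (ι' (r t))) * (C c * ∏ j, (X - C (χ (a j)))) := by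
      rw [hrd, Polynomial.map_mul, Polynomial.map_sub, Polynomial.map_X, Polynomial.map_C, hfk]
    -- the Hasse-Witt matrix
    have hW : (∀ i j : Fin g, ι' (hasseWitt p g (rd v (memb f φ t)) i j) =
        (YX p g (fun j => χ (a j)) i (lo j)).eval (ι' (r t))) ∨
        (∀ i j : Fin g, ι' (hasseWitt p g (rd v (memb f φ t)) i j) =
        -(YX p g (fun j => χ (a j)) i (lo j)).eval (ι' (r t))) := by
      rcases hA1 k p hp2 g (fun j => χ (a j)) c (ι' (r t)) hcp hχ2 with h | h
      · left
        intro i j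
        rw [hasseWitt_map, hrk, h]
      · right
        intro i j
        rw [hasseWitt_map, hrk, h]
    have hnot := fun h => hc2 (hH k ((evalRingHom (ι' (r t))).comp (mapRingHom χ))
      (fun u : Fin g × Fin g => (YX p g (fun j => χ (a j)) u.1 (lo u.2)).eval (ι' (r t))) h)
    rw [imp_false, not_or, not_or] at hnot
    obtain ⟨hn1, hn2, hn3⟩ := hnot
    refine ⟨⟨h2v, ?_, ?_, ?_⟩, ?_⟩
    · rw [hrd, natDegree_mul (X_sub_C_ne_zero _) hfκ0, natDegree_X_sub_C, hfdeg, add_comm]
    · rw [hrd]
      refine Polynomial.Separable.mul separable_X_sub_C hfsep ?_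
      rw [(irreducible_X_sub_C (r t)).coprime_iff_not_dvd, dvd_iff_isRoot]
      exact hc1
    · intro hdet
      apply hn1
      have hdet' : ι' ((hasseWitt p g (rd v (memb f φ t))).det) = 0 := by
        rw [hdet, map_zero]
      rw [RingHom.map_det] at hdet'
      rcases hW with h | h
      · rw [← hdet']
        congr 1
        ext i j
        rw [Matrix.of_apply, RingHom.mapMatrix_apply, Matrix.map_apply, h]
      · have h5 : ι'.mapMatrix (hasseWitt p g (rd v (memb f φ t))) =
            -(Matrix.of fun i j : Fin g =>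
              (YX p g (fun j => χ (a j)) i (lo j)).eval (ι' (r t))) := by
          ext i j
          rw [Matrix.neg_apply, Matrix.of_apply, RingHom.mapMatrix_apply, Matrix.map_apply, h]
        rw [h5, Matrix.det_neg] at hdet'
        rcases mul_eq_zero.1 hdet' with h6 | h6
        · exact absurd h6 (pow_ne_zero _ (neg_ne_zero.2 one_ne_zero))
        · exact h6
    · intro hav
      have h5 : ∀ W : Fin g × Fin g → k,
          MvPolynomial.eval₂ ((evalRingHom (ι' (r t))).comp (mapRingHom χ)) W
            (MvPolynomial.map (mapRingHom (algebraMap (𝓞 K) A)) G) =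
          MvPolynomial.eval₂ (ι'.comp ((algebraMap (𝓞 K) κ).comp
            (evalRingHom (φ.eval (t : 𝓞 K))))) W G := by
        intro W
        rw [MvPolynomial.eval₂_map]
        congr 1
        refine Polynomial.ringHom_ext (fun x => ?_) ?_
        · simp only [RingHom.comp_apply, coe_mapRingHom, map_C, coe_evalRingHom, eval_C]
          exact (RingHom.congr_fun hcomp x).symm
        · simp only [RingHom.comp_apply, coe_mapRingHom, map_X, coe_evalRingHom, eval_X]
          rfl
      have h6 := congrArg ι' hav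
      rw [map_zero, MvPolynomial.eval₂_comp_left] at h6
      rcases hW with h | h
      · apply hn2
        rw [h5, ← h6]
        congr 1
        funext u
        exact (h u.1 u.2).symm
      · apply hn3
        rw [h5, ← h6]
        congr 1
        funext u
        exact (h u.1 u.2).symm
  have hfib : ∀ s : κ, (((range p).filter fun t : ℕ => ¬ (GoodOrd g (2 * g + 1) (memb f φ t) v ∧
      Avoids g G (φ.eval (t : 𝓞 K)) (memb f φ t) v)).filter (fun t => r t = s)).card ≤ d := by
    intro s
    have hlκ : algebraMap (𝓞 K) κ φ.leadingCoeff ≠ 0 := by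
      rw [Ne, Ideal.algebraMap_residueField_eq_zero]
      exact hlv
    have hdegφ : (φ.map (algebraMap (𝓞 K) κ)).natDegree = d :=
      natDegree_map_of_leadingCoeff_ne_zero _ hlκ
    have hne : φ.map (algebraMap (𝓞 K) κ) - C s ≠ 0 := by
      intro h
      rw [sub_eq_zero] at h
      rw [h, natDegree_C] at hdegφ
      omega
    have hdeg2 : (φ.map (algebraMap (𝓞 K) κ) - C s).natDegree ≤ d := by
      rw [natDegree_sub_C, hdegφ]
    have hinjOn : Set.InjOn (fun t : ℕ => (t : κ)) (range p : Set ℕ) := by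
      intro x hx y hy hxy
      rw [Finset.coe_range, Set.mem_Iio] at hx hy
      have := (CharP.natCast_eq_natCast κ p).1 hxy
      rw [Nat.ModEq, Nat.mod_eq_of_lt hx, Nat.mod_eq_of_lt hy] at this
      exact this
    have hsub : (((range p).filter fun t : ℕ => ¬ (GoodOrd g (2 * g + 1) (memb f φ t) v ∧
      Avoids g G (φ.eval (t : 𝓞 K)) (memb f φ t) v)).filter (fun t => r t = s)).image
        (fun t : ℕ => (t : κ)) ⊆ (φ.map (algebraMap (𝓞 K) κ) - C s).roots.toFinset := by
      intro x hx
      obtain ⟨t, ht, rfl⟩ := Finset.mem_image.1 hx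
      have hts := (Finset.mem_filter.1 ht).2
      rw [Multiset.mem_toFinset, mem_roots hne, IsRoot.def, eval_sub, eval_C, sub_eq_zero,
        ← hts, hr]
      simp only
      rw [← Polynomial.eval₂_at_apply, Polynomial.eval₂_eq_eval_map, map_natCast]
    calc _ = ((((range p).filter fun t : ℕ => ¬ (GoodOrd g (2 * g + 1) (memb f φ t) v ∧
      Avoids g G (φ.eval (t : 𝓞 K)) (memb f φ t) v)).filter (fun t => r t = s)).image
        (fun t : ℕ => (t : κ))).card := by
          rw [Finset.card_image_of_injOn]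
          refine hinjOn.mono ?_
          intro t ht
          exact Finset.mem_coe.2 (Finset.mem_filter.1 (Finset.mem_filter.1
            (Finset.mem_coe.1 ht)).1).1
      _ ≤ (φ.map (algebraMap (𝓞 K) κ) - C s).roots.toFinset.card := Finset.card_le_card hsub
      _ ≤ (φ.map (algebraMap (𝓞 K) κ) - C s).roots.card := Multiset.toFinset_card_le _
      _ ≤ (φ.map (algebraMap (𝓞 K) κ) - C s).natDegree := card_roots' _
      _ ≤ d := hdeg2
  have hcount : ((range p).filter fun t : ℕ => ¬ (GoodOrd g (2 * g + 1) (memb f φ t) v ∧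
      Avoids g G (φ.eval (t : 𝓞 K)) (memb f φ t) v)).card ≤ d * Z.card := by
    refine (Finset.card_le_mul_card_image (f := r) _ d (fun s _ => hfib s)).trans ?_
    refine Nat.mul_le_mul_left _ (Finset.card_le_card ?_)
    intro s hs
    obtain ⟨t, ht, rfl⟩ := Finset.mem_image.1 hs
    exact hbad t (Finset.mem_filter.1 ht).2
  have hcount' : ((((range p).filter fun t : ℕ => ¬ (GoodOrd g (2 * g + 1) (memb f φ t) v ∧
      Avoids g G (φ.eval (t : 𝓞 K)) (memb f φ t) v)).card : ℕ) : ℝ) ≤ d * Z.card := by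
    exact_mod_cast hcount
  refine hcount'.trans ?_
  have hpN' : (N : ℝ) < p := by exact_mod_cast hpN
  have h6 : 4 * g * d / ε < p := hN.trans hpN'
  rw [div_lt_iff₀ hε] at h6
  calc (d : ℝ) * Z.card ≤ d * (2 * g + ε / (2 * d) * p) :=
        mul_le_mul_of_nonneg_left hZcard hdpos.le
    _ = 2 * g * d + ε * p / 2 := by field_simp
    _ ≤ ε * p := by linarith

end Pool.Agent.Helper90.BM
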