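import Pool.Agent.Helper90.BM.FewK
import Pool.Agent.Helper4.BM.A12

/-!
# `S_FewK` from `S_FewG`
-/

set_option autoImplicit false

namespace Pool.Agent.Helper90.BM

open Pool.Agent.Helper62.BM

theorem fewK_of_fewG (h : S_FewG) : S_FewK :=
  fewK (by
    intro k _ p _ _ hp g a c s hc hc0
    exact Pool.Agent.Helper4.BM.A1 k p hp g a c s hc hc0) (by
    intro A _ _ g G hG
    exact Pool.Agent.Helper4.BM.A2 A g G hG) h

end Pool.Agent.Helper90.BM
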