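import Pool.Agent.Helper62.BM.Stm4

/-!
# Reductions of a finitely generated algebraic extension; facts on the residue fields

The proofs are taken from the library (`Pool.Agent.Q102.AP`, `Pool.Agent.Q267.OD`,
`Pool.Agent.W352.ChAbs`).
-/

set_option autoImplicit false

namespace Pool.Agent.Helper90.BM

open NumberField IsDedekindDomain

/-- the prime of `B` above a prime of the integral closure -/
lemma exists_prime {R B : Type} [CommRing R] [IsDomain R] [CommRing B] [IsDomain B] [Algebra R B]
    (hinj : Function.Injective (algebraMap R B)) (a : R)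
    (ha : ∀ x : B, ∃ N : ℕ, algebraMap R B a ^ N * x ∈ integralClosure R B) (v : Ideal R) [v.IsPrime]
    (hav : a ∉ v) : ∃ P : Ideal B, P.IsPrime ∧ P.comap (algebraMap R B) = v := by
  obtain ⟨q, -, hq, hqv⟩ := Ideal.exists_ideal_over_prime_of_isIntegral (S := integralClosure R B) v ⊥ (by
    intro r hr
    rw [Ideal.mem_comap, Ideal.mem_bot] at hr
    have h1 : algebraMap R B r = 0 := congrArg Subtype.val hr
    have h2 : r = 0 := hinj (by rw [h1, map_zero])
    rw [h2]
    exact v.zero_mem)
  have haC : ∀ N : ℕ, algebraMap R B a ^ N ∈ integralClosure R B := fun N =>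
    (integralClosure R B).pow_mem ((integralClosure R B).algebraMap_mem a) N
  have haq : ∀ N : ℕ, (⟨algebraMap R B a ^ N, haC N⟩ : integralClosure R B) ∉ q := by
    intro N h
    have h1 : (⟨algebraMap R B a ^ N, haC N⟩ : integralClosure R B) = (algebraMap R (integralClosure R B) a) ^ N := by
      apply Subtype.ext
      rfl
    rw [h1] at h
    have h2 := hq.mem_of_pow_mem _ h
    rw [← Ideal.mem_comap, hqv] at h2
    exact hav h2
  let P : Ideal B :=
    { carrier := {x | ∃ N : ℕ, ∃ h : algebraMap R B a ^ N * x ∈ integralClosure R B, (⟨_, h⟩ : integralClosure R B) ∈ q}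
      zero_mem' := ⟨0, by rw [mul_zero]; exact Subalgebra.zero_mem _, by
        have : (⟨algebraMap R B a ^ 0 * 0, by rw [mul_zero]; exact Subalgebra.zero_mem _⟩ : integralClosure R B) = 0 := by
          apply Subtype.ext
          simp
        rw [this]
        exact q.zero_mem⟩
      add_mem' := by
        rintro x y ⟨N, hN, hNq⟩ ⟨M, hM, hMq⟩
        have e1 : algebraMap R B a ^ (N + M) * (x + y) = algebraMap R B a ^ M * (algebraMap R B a ^ N * x) +
            algebraMap R B a ^ N * (algebraMap R B a ^ M * y) := by ring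
        have h1 : algebraMap R B a ^ (N + M) * (x + y) ∈ integralClosure R B := by
          rw [e1]
          exact Subalgebra.add_mem _ (Subalgebra.mul_mem _ (haC M) hN) (Subalgebra.mul_mem _ (haC N) hM)
        refine ⟨N + M, h1, ?_⟩
        have h2 : (⟨_, h1⟩ : integralClosure R B) = ⟨_, haC M⟩ * ⟨_, hN⟩ + ⟨_, haC N⟩ * ⟨_, hM⟩ := by
          apply Subtype.ext
          exact e1
        rw [h2]
        exact q.add_mem (q.mul_mem_left _ hNq) (q.mul_mem_left _ hMq)
      smul_mem' := by
        rintro c x ⟨N, hN, hNq⟩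
        obtain ⟨M, hM⟩ := ha c
        have e1 : algebraMap R B a ^ (M + N) * (c • x) = (algebraMap R B a ^ M * c) * (algebraMap R B a ^ N * x) := by
          rw [smul_eq_mul]; ring
        have h1 : algebraMap R B a ^ (M + N) * (c • x) ∈ integralClosure R B := by
          rw [e1]
          exact Subalgebra.mul_mem _ hM hN
        refine ⟨M + N, h1, ?_⟩
        have h2 : (⟨_, h1⟩ : integralClosure R B) = ⟨_, hM⟩ * ⟨_, hN⟩ := by
          apply Subtype.ext
          exact e1
        rw [h2]
        exact q.mul_mem_left _ hNq }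
  have hP : ∀ x, x ∈ P ↔ ∃ N : ℕ, ∃ h : algebraMap R B a ^ N * x ∈ integralClosure R B,
      (⟨_, h⟩ : integralClosure R B) ∈ q := fun x => Iff.rfl
  refine ⟨P, ?_, ?_⟩
  · refine Ideal.isPrime_iff.2 ⟨?_, ?_⟩
    · intro h
      have h1 : (1 : B) ∈ P := by rw [h]; exact Submodule.mem_top
      obtain ⟨N, hN, hNq⟩ := (hP 1).1 h1
      apply haq N
      have : (⟨algebraMap R B a ^ N, haC N⟩ : integralClosure R B) = ⟨_, hN⟩ := by
        apply Subtype.ext
        simp
      rw [this]
      exact hNq
    · intro x y hxy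
      obtain ⟨N, hN, hNq⟩ := (hP _).1 hxy
      obtain ⟨M1, h1⟩ := ha x
      obtain ⟨M2, h2⟩ := ha y
      have h3 : (⟨_, haC N⟩ : integralClosure R B) * (⟨_, h1⟩ * ⟨_, h2⟩) ∈ q := by
        have e1 : (⟨_, haC N⟩ : integralClosure R B) * (⟨_, h1⟩ * ⟨_, h2⟩) = ⟨_, haC (M1 + M2)⟩ * ⟨_, hN⟩ := by
          apply Subtype.ext
          show algebraMap R B a ^ N * ((algebraMap R B a ^ M1 * x) * (algebraMap R B a ^ M2 * y)) =
            algebraMap R B a ^ (M1 + M2) * (algebraMap R B a ^ N * (x * y))
          ring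
        rw [e1]
        exact q.mul_mem_left _ hNq
      rcases hq.mem_or_mem h3 with h4 | h4
      · exact absurd h4 (haq N)
      · rcases hq.mem_or_mem h4 with h5 | h5
        · exact Or.inl ⟨M1, h1, h5⟩
        · exact Or.inr ⟨M2, h2, h5⟩
  · ext r
    rw [Ideal.mem_comap]
    constructor
    · intro h
      obtain ⟨N, hN, hNq⟩ := (hP _).1 h
      have h1 : (⟨_, haC N⟩ : integralClosure R B) * algebraMap R (integralClosure R B) r ∈ q := by
        have e1 : (⟨_, haC N⟩ : integralClosure R B) * algebraMap R (integralClosure R B) r = ⟨_, hN⟩ := by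
          apply Subtype.ext
          rfl
        rw [e1]
        exact hNq
      rcases hq.mem_or_mem h1 with h2 | h2
      · exact absurd h2 (haq N)
      · rw [← Ideal.mem_comap, hqv] at h2
        exact h2
    · intro h
      rw [← hqv, Ideal.mem_comap] at h
      have h1 : algebraMap R B a ^ 0 * algebraMap R B r ∈ integralClosure R B := by
        rw [pow_zero, one_mul]
        exact (integralClosure R B).algebraMap_mem r
      refine (hP _).2 ⟨0, h1, ?_⟩
      have e1 : (⟨_, h1⟩ : integralClosure R B) = algebraMap R (integralClosure R B) r := by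
        apply Subtype.ext
        show algebraMap R B a ^ 0 * algebraMap R B r = algebraMap R B r
        rw [pow_zero, one_mul]
      rw [e1]
      exact h

theorem spread : ∀ (R B : Type) [CommRing R] [IsDedekindDomain R] [CommRing B] [IsDomain B]
    [Algebra R B], Function.Injective (algebraMap R B) → Algebra.FiniteType R B →
    Algebra.IsAlgebraic R B → ∀ b : B, b ≠ 0 →
    {v : HeightOneSpectrum R | ¬ ∃ (k : Type) (_ : Field k) (φ : B →+* k),
      φ b ≠ 0 ∧ RingHom.ker (φ.comp (algebraMap R B)) = v.asIdeal}.Finite := by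
  classical
  intro R B _ _ _ _ _ hinj hft halg b hb
  -- b divides an element of R
  obtain ⟨a0, ha0, ha0b⟩ := (halg.isAlgebraic b).exists_nonzero_dvd (mem_nonZeroDivisors_of_ne_zero hb)
  obtain ⟨s, hs⟩ := hft.out
  have hmul : ∀ x : B, ∃ c : R, c ≠ 0 ∧ algebraMap R B c * x ∈ integralClosure R B := by
    intro x
    obtain ⟨c, hc, hcx⟩ := (halg.isAlgebraic x).exists_integral_multiple
    refine ⟨c, hc, ?_⟩
    rw [← Algebra.smul_def]
    exact hcx
  choose c hc hcx using hmul
  obtain ⟨a, ha⟩ : ∃ a : R, a = a0 * ∏ x ∈ s, c x := ⟨_, rfl⟩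
  have ha_ne : a ≠ 0 := by
    rw [ha]
    exact mul_ne_zero ha0 (Finset.prod_ne_zero_iff.2 fun x _ => hc x)
  have haC : ∀ r : R, algebraMap R B r ∈ integralClosure R B := fun r => (integralClosure R B).algebraMap_mem r
  have hall : ∀ x : B, ∃ N : ℕ, algebraMap R B a ^ N * x ∈ integralClosure R B := by
    intro x
    have hx : x ∈ Algebra.adjoin R (s : Set B) := by rw [hs]; exact Algebra.mem_top
    induction hx using Algebra.adjoin_induction with
    | mem x hx =>
      refine ⟨1, ?_⟩
      have h1 : a = (a0 * ∏ y ∈ s.erase x, c y) * c x := by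
        rw [ha, mul_assoc, Finset.prod_erase_mul _ _ hx]
      rw [pow_one, h1, map_mul, mul_assoc]
      exact Subalgebra.mul_mem _ (haC _) (hcx x)
    | algebraMap r => exact ⟨0, by rw [pow_zero, one_mul]; exact haC r⟩
    | add x y _ _ hx hy =>
      obtain ⟨N, hN⟩ := hx
      obtain ⟨M, hM⟩ := hy
      refine ⟨N + M, ?_⟩
      have e1 : algebraMap R B a ^ (N + M) * (x + y) = algebraMap R B a ^ M * (algebraMap R B a ^ N * x) +
          algebraMap R B a ^ N * (algebraMap R B a ^ M * y) := by ring
      rw [e1]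
      exact Subalgebra.add_mem _ (Subalgebra.mul_mem _ (Subalgebra.pow_mem _ (haC a) M) hN)
        (Subalgebra.mul_mem _ (Subalgebra.pow_mem _ (haC a) N) hM)
    | mul x y _ _ hx hy =>
      obtain ⟨N, hN⟩ := hx
      obtain ⟨M, hM⟩ := hy
      refine ⟨N + M, ?_⟩
      have e1 : algebraMap R B a ^ (N + M) * (x * y) = (algebraMap R B a ^ N * x) * (algebraMap R B a ^ M * y) := by
        ring
      rw [e1]
      exact Subalgebra.mul_mem _ hN hM
  refine (Ideal.finite_factors (I := Ideal.span {a}) (by
    rw [Ne, Ideal.zero_eq_bot, Ideal.span_singleton_eq_bot]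
    exact ha_ne)).subset ?_
  intro v hv
  rw [Set.mem_ofPred_eq] at hv ⊢
  by_contra hcon
  apply hv
  have hav : a ∉ v.asIdeal := by
    intro h
    apply hcon
    rw [Ideal.dvd_span_singleton]
    exact h
  have := v.isPrime
  obtain ⟨P, hP, hPv⟩ := exists_prime hinj a hall v.asIdeal hav
  refine ⟨FractionRing (B ⧸ P), inferInstance, (algebraMap (B ⧸ P) (FractionRing (B ⧸ P))).comp (Ideal.Quotient.mk P),
    ?_, ?_⟩
  · intro h
    rw [RingHom.comp_apply] at h
    have h1 : Ideal.Quotient.mk P b = 0 := IsFractionRing.injective (B ⧸ P) (FractionRing (B ⧸ P)) (by rw [h, map_zero])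
    rw [Ideal.Quotient.eq_zero_iff_mem] at h1
    obtain ⟨b', hb'⟩ := ha0b
    have h2 : algebraMap R B a0 ∈ P := by
      rw [hb']
      exact P.mul_mem_right _ h1
    have h3 : a0 ∈ v.asIdeal := by rw [← hPv]; exact h2
    apply hav
    rw [ha]
    exact v.asIdeal.mul_mem_right _ h3
  · ext r
    rw [RingHom.mem_ker, RingHom.comp_apply, RingHom.comp_apply, ← hPv, Ideal.mem_comap, ← Ideal.Quotient.eq_zero_iff_mem]
    constructor
    · intro h
      exact IsFractionRing.injective (B ⧸ P) (FractionRing (B ⧸ P)) (by rw [h, map_zero])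
    · intro h
      rw [h, map_zero]


section place

variable {K : Type} [Field K] [NumberField K]

theorem finite_le (N : ℕ) :
    {v : HeightOneSpectrum (𝓞 K) | Ideal.absNorm v.asIdeal ≤ N}.Finite := by
  have h := Ideal.finite_setOfPred_absNorm_le (S := 𝓞 K) N
  refine Set.Finite.of_finite_image (f := HeightOneSpectrum.asIdeal) (h.subset ?_) ?_
  · rintro I ⟨v, hv, rfl⟩
    exact hv
  · intro v _ w _ h
    exact HeightOneSpectrum.ext h

lemma finite_mem (x : 𝓞 K) (hx : x ≠ 0) :
    {v : HeightOneSpectrum (𝓞 K) | x ∈ v.asIdeal}.Finite := by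
  have h : (Ideal.span {x} : Ideal (𝓞 K)) ≠ 0 := by
    rw [Ne, Ideal.zero_eq_bot, Ideal.span_singleton_eq_bot]
    exact hx
  refine (Ideal.finite_factors h).subset ?_
  intro v hv
  rw [Set.mem_ofPred_eq, Ideal.dvd_span_singleton]
  exact hv

lemma card_res (v : HeightOneSpectrum (𝓞 K)) :
    Nat.card v.asIdeal.ResidueField = Ideal.absNorm v.asIdeal := by
  rw [Ideal.absNorm_apply]
  have := v.isMaximal
  exact (Nat.card_congr (Equiv.ofBijective _
    (Ideal.bijective_algebraMap_quotient_residueField v.asIdeal))).symm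

lemma charP_res (v : HeightOneSpectrum (𝓞 K)) (hv : (Ideal.absNorm v.asIdeal).Prime) :
    CharP v.asIdeal.ResidueField (Ideal.absNorm v.asIdeal) := by
  have h1 : ((Ideal.absNorm v.asIdeal : ℕ) : v.asIdeal.ResidueField) = 0 := by
    rw [← map_natCast (algebraMap (𝓞 K) v.asIdeal.ResidueField),
      Ideal.algebraMap_residueField_eq_zero]
    exact Ideal.absNorm_mem _
  have h2 := ringChar.dvd h1
  rcases (Nat.dvd_prime hv).mp h2 with h | h
  · exfalso
    have h3 : ((ringChar v.asIdeal.ResidueField : ℕ) : v.asIdeal.ResidueField) = 0 :=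
      CharP.cast_eq_zero _ _
    rw [h, Nat.cast_one] at h3
    exact one_ne_zero h3
  · rw [← h]
    exact ringChar.charP _

end place

end Pool.Agent.Helper90.BM
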