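import Pool.Agent.Helper90.BM.Poly

/-!
# The internal iteration for matrices (package N2)
-/

set_option autoImplicit false

open Polynomial Matrix Finset Filter

namespace Pool.Agent.Helper90.BM

open Pool.Agent.Helper62.BM

section NB

variable {F : Type} [Field F] {n : ℕ}

/-- the connection on endomorphisms -/
def NB (D : Der F) (B : Matrix (Fin n) (Fin n) F) (M : Matrix (Fin n) (Fin n) F) :
    Matrix (Fin n) (Fin n) F := M.map D + B * M - M * B

theorem NB_zero (D : Der F) (B : Matrix (Fin n) (Fin n) F) : NB D B 0 = 0 := by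
  unfold NB
  rw [Matrix.map_zero _ (map_zero D), mul_zero, zero_mul, add_zero, sub_zero]

theorem NB_add (D : Der F) (B M N : Matrix (Fin n) (Fin n) F) :
    NB D B (M + N) = NB D B M + NB D B N := by
  unfold NB
  rw [Matrix.map_add _ (map_add D), mul_add, add_mul]
  abel

theorem NB_smul (D : Der F) (B : Matrix (Fin n) (Fin n) F) (c : F)
    (M : Matrix (Fin n) (Fin n) F) : NB D B (c • M) = D c • M + c • NB D B M := by
  unfold NB
  have h : (c • M).map D = D c • M + c • M.map D := by
    ext i j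
    simp only [Matrix.map_apply, Matrix.smul_apply, Matrix.add_apply, smul_eq_mul,
      Derivation.leibniz]
    ring
  rw [h, Matrix.mul_smul, Matrix.smul_mul, smul_sub, smul_add]
  abel

theorem NB_iter (p : ℕ) [Fact p.Prime] [CharP F p] (D : Der F) (hD : ∀ c : F, (⇑D)^[p] c = 0)
    (B M : Matrix (Fin n) (Fin n) F) :
    (NB D B)^[p] M = pcv D B p * M - M * pcv D B p := by
  have h1 := Pool.Agent.Helper12.BM.pcvT F p D hD (Fin n) (Fin n) B (-Bᵀ) M
  have h2 : (fun M : Matrix (Fin n) (Fin n) F =>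
      Matrix.of fun i j => D (M i j) + (B * M + M * (-Bᵀ)ᵀ) i j) = NB D B := by
    funext M
    ext i j
    unfold NB
    simp only [Matrix.of_apply, Matrix.sub_apply, Matrix.add_apply, Matrix.map_apply,
      Matrix.transpose_neg, Matrix.transpose_transpose, Matrix.mul_neg, Matrix.neg_apply]
    ring
  rw [h2] at h1
  rw [h1, Pool.Agent.Helper12.BM.pcvD F p D hD (Fin n) B, Matrix.transpose_neg,
    Matrix.transpose_transpose, Matrix.mul_neg, sub_eq_add_neg]

end NB

section lift

variable (U : Ultrafilter ℕ) {F : ℕ → Type} [∀ i, Field (F i)]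

theorem mkM_surj {m n : Type} (M : Matrix m n (UP U F)) :
    ∃ M' : ∀ i, Matrix m n (F i), mkM U M' = M := by
  choose f hf using fun x : m × n => mk_surj U (F := F) (M x.1 x.2)
  refine ⟨fun i => Matrix.of fun a b => f (a, b) i, ?_⟩
  ext a b
  rw [mkM_apply, ← hf (a, b)]
  rfl

theorem mkM_eq {m n : Type} [Finite m] [Finite n] {M N : ∀ i, Matrix m n (F i)} :
    mkM U M = mkM U N ↔ ∀ᶠ i in (U : Filter ℕ), M i = N i := by
  constructor
  · intro h
    have h1 : ∀ x : m × n, ∀ᶠ i in (U : Filter ℕ), M i x.1 x.2 = N i x.1 x.2 := by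
      intro x
      have := congrFun (congrFun h x.1) x.2
      rw [mkM_apply, mkM_apply, mk_eq] at this
      exact this
    filter_upwards [Filter.eventually_all.2 h1] with i hi
    ext a b
    exact hi (a, b)
  · intro h
    ext a b
    rw [mkM_apply, mkM_apply, mk_eq]
    filter_upwards [h] with i hi
    rw [hi]

theorem mk_sum {J : Type} (s : Finset J) (f : J → ∀ i, F i) :
    mk U (fun i => ∑ j ∈ s, f j i) = ∑ j ∈ s, mk U (f j) := by
  rw [← map_sum]
  congr 1
  funext i
  rw [Finset.sum_apply]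

theorem mkM_mul {l m n : Type} [Fintype m] (M : ∀ i, Matrix l m (F i))
    (N : ∀ i, Matrix m n (F i)) : mkM U (fun i => M i * N i) = mkM U M * mkM U N := by
  ext a b
  rw [mkM_apply, Matrix.mul_apply]
  simp only [Matrix.mul_apply, mkM_apply, mk_sum]
  refine Finset.sum_congr rfl fun j _ => ?_
  rw [← map_mul]
  rfl

theorem mkM_add {m n : Type} (M N : ∀ i, Matrix m n (F i)) :
    mkM U (fun i => M i + N i) = mkM U M + mkM U N := by
  ext a b
  rw [mkM_apply, Matrix.add_apply, mkM_apply, mkM_apply, ← map_add]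
  rfl

theorem mkM_sub {m n : Type} (M N : ∀ i, Matrix m n (F i)) :
    mkM U (fun i => M i - N i) = mkM U M - mkM U N := by
  ext a b
  rw [mkM_apply, Matrix.sub_apply, mkM_apply, mkM_apply, ← map_sub]
  rfl

theorem mkM_smul {m n : Type} (c : ∀ i, F i) (M : ∀ i, Matrix m n (F i)) :
    mkM U (fun i => c i • M i) = mk U c • mkM U M := by
  ext a b
  rw [mkM_apply, Matrix.smul_apply, mkM_apply, smul_eq_mul, ← map_mul]
  rfl

theorem mkM_sum {m n J : Type} [Fintype J] (M : J → ∀ i, Matrix m n (F i)) :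
    mkM U (fun i => ∑ j, M j i) = ∑ j, mkM U (M j) := by
  ext a b
  rw [mkM_apply, Matrix.sum_apply]
  simp only [Matrix.sum_apply, mk_sum, mkM_apply]

theorem mkM_der {m n : Type} (D : ∀ i, Der (F i)) (M : ∀ i, Matrix m n (F i)) :
    (mkM U M).map (fun x => der U (F := F) D x) =
      mkM U fun i => (M i).map (fun x => D i x) := by
  ext a b
  rw [Matrix.map_apply, mkM_apply, mkM_apply, der_mk]
  rfl

theorem mkM_NB {n : ℕ} (D : ∀ i, Der (F i)) (B M : ∀ i, Matrix (Fin n) (Fin n) (F i)) :
    mkM U (fun i => NB (D i) (B i) (M i)) = NB (der U D) (mkM U B) (mkM U M) := by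
  unfold NB
  rw [mkM_der, ← mkM_mul, ← mkM_mul, ← mkM_add, ← mkM_sub]

end lift

/-- Package N2. -/
theorem dpm : S_DPM := by
  intro U F _ p _ _ D hD n B W hW
  have hfg : W.FG := IsNoetherian.noetherian W
  obtain ⟨r, w, hw⟩ := Submodule.fg_iff_exists_fin_generating_family.1 hfg
  have hwW : ∀ j, w j ∈ W := fun j => by
    rw [← hw]; exact Submodule.subset_span (Set.mem_range_self j)
  choose w' hw' using fun j => mkM_surj U (w j)
  have hc : ∀ j, ∃ c : Fin r → UP U F, ∑ k, c k • w k = NB (der U D) (mkM U B) (w j) := by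
    intro j
    have h1 := hW (w j) (hwW j)
    rw [← hw] at h1
    exact Submodule.mem_span_range_iff_exists_fun (R := UP U F).1 h1
  choose c hc using hc
  choose c' hc' using fun j k => mk_surj U (c j k)
  have hev : ∀ j, ∀ᶠ i in (U : Filter ℕ),
      NB (D i) (B i) (w' j i) = ∑ k, c' j k i • w' k i := by
    intro j
    rw [← mkM_eq, mkM_NB, hw', ← hc j, mkM_sum]
    refine Finset.sum_congr rfl fun k _ => ?_
    rw [mkM_smul, hc', hw']
  have hev2 : ∀ᶠ i in (U : Filter ℕ), ∀ j, ∃ e : Fin r → F i,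
      pcv (D i) (B i) (p i) * w' j i - w' j i * pcv (D i) (B i) (p i) = ∑ k, e k • w' k i := by
    filter_upwards [Filter.eventually_all.2 hev] with i hi j
    obtain ⟨e, he⟩ := inner (D i) (NB (D i) (B i)) (NB_zero _ _) (NB_add _ _) (NB_smul _ _)
      (fun j => w' j i) (fun j k => c' j k i) hi (p i) j
    rw [NB_iter (p i) (D i) (hD i)] at he
    exact ⟨e, he⟩
  classical
  let e : Fin r → Fin r → ∀ i, F i := fun j k i =>
    if h : ∀ j, ∃ e : Fin r → F i,
      pcv (D i) (B i) (p i) * w' j i - w' j i * pcv (D i) (B i) (p i) = ∑ k, e k • w' k i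
    then (h j).choose k else 0
  have he : ∀ j, ∀ᶠ i in (U : Filter ℕ),
      pcv (D i) (B i) (p i) * w' j i - w' j i * pcv (D i) (B i) (p i) =
        ∑ k, e j k i • w' k i := by
    intro j
    filter_upwards [hev2] with i hi
    have h1 : ∀ k, e j k i = (hi j).choose k := fun k => by
      simp only [e]
      rw [dif_pos hi]
    simp only [h1]
    exact (hi j).choose_spec
  have hgen : ∀ j, (mkM U (fun i => pcv (D i) (B i) (p i)) * w j -
      w j * mkM U (fun i => pcv (D i) (B i) (p i))) ∈ W := by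
    intro j
    have h1 := (mkM_eq U).2 (he j)
    rw [mkM_sub, mkM_mul, mkM_mul, hw', mkM_sum] at h1
    rw [h1]
    apply Submodule.sum_mem
    intro k _
    rw [mkM_smul, hw']
    exact Submodule.smul_mem _ _ (hwW k)
  intro θ hθ
  rw [← hw] at hθ
  refine Submodule.span_induction (p := fun θ _ =>
    (mkM U (fun i => pcv (D i) (B i) (p i)) * θ -
      θ * mkM U (fun i => pcv (D i) (B i) (p i))) ∈ W) ?_ ?_ ?_ ?_ hθ
  · rintro _ ⟨j, rfl⟩
    exact hgen j
  · rw [mul_zero, zero_mul, sub_zero]
    exact Submodule.zero_mem _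
  · intro x y _ _ hx hy
    rw [mul_add, add_mul, add_sub_add_comm]
    exact Submodule.add_mem _ hx hy
  · intro a x _ hx
    rw [Matrix.mul_smul, Matrix.smul_mul, ← smul_sub]
    exact Submodule.smul_mem _ _ hx

end Pool.Agent.Helper90.BM
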