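import Pool.Agent.Helper62.BM.Stm2
import Pool.Agent.Helper12.BM.Leib

/-!
# The `p`-th power of a derivation of a polynomial ring (package N3)
-/

set_option autoImplicit false

open Polynomial Matrix Finset Filter

namespace Pool.Agent.Helper90.BM

open Pool.Agent.Helper62.BM

/-- a semilinear operator which preserves a span -/
theorem inner {F V : Type} [Field F] [AddCommGroup V] [Module F V] (D : F → F) (T : V → V)
    (h0 : T 0 = 0) (hadd : ∀ x y, T (x + y) = T x + T y)
    (hsm : ∀ (c : F) x, T (c • x) = D c • x + c • T x)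
    {J : Type} [Fintype J] (w : J → V) (c : J → J → F) (h : ∀ j, T (w j) = ∑ k, c j k • w k)
    (q : ℕ) (j : J) : ∃ e : J → F, T^[q] (w j) = ∑ k, e k • w k := by
  classical
  let Th : V →+ V := { toFun := T, map_zero' := h0, map_add' := hadd }
  have hTh : ∀ x, T x = Th x := fun _ => rfl
  induction q with
  | zero =>
    refine ⟨Pi.single j 1, ?_⟩
    rw [Function.iterate_zero, id, Finset.sum_eq_single j]
    · rw [Pi.single_eq_same, one_smul]
    · intro b _ hb
      rw [Pi.single_eq_of_ne hb, zero_smul]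
    · intro h; exact absurd (Finset.mem_univ _) h
  | succ q ih =>
    obtain ⟨e, he⟩ := ih
    refine ⟨fun l => D (e l) + ∑ k, e k * c k l, ?_⟩
    rw [Function.iterate_succ_apply', he, hTh, map_sum]
    simp only [← hTh, hsm, h, Finset.smul_sum, smul_smul, add_smul, Finset.sum_smul]
    rw [Finset.sum_add_distrib, Finset.sum_add_distrib]
    congr 1
    exact Finset.sum_comm

section poly

variable {F : Type} [Field F] {m n : ℕ}

/-- linear forms -/
noncomputable def XV (i : Fin m) (v : Fin n → F) : MvPolynomial (Fin m × Fin n) F :=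
  ∑ l, MvPolynomial.X (i, l) * MvPolynomial.C (v l)

theorem T_XV (D : Derivation ℤ F F) (B : Matrix (Fin n) (Fin n) F)
    (T : Derivation ℤ (MvPolynomial (Fin m × Fin n) F) (MvPolynomial (Fin m × Fin n) F))
    (hC : ∀ c, T (MvPolynomial.C c) = MvPolynomial.C (D c))
    (hX : ∀ s : Fin m × Fin n, T (MvPolynomial.X s) =
      ∑ l, MvPolynomial.X (s.1, l) * MvPolynomial.C (B l s.2)) (i : Fin m) (v : Fin n → F) :
    T (XV i v) = XV i (nab D B v) := by
  unfold XV nab
  rw [map_sum]
  simp only [Derivation.leibniz, hC, hX, smul_eq_mul, map_add, mul_add]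
  rw [Finset.sum_add_distrib, Finset.sum_add_distrib]
  congr 1
  simp only [Matrix.mulVec, dotProduct, map_sum, Finset.mul_sum, map_mul]
  rw [Finset.sum_comm]
  refine Finset.sum_congr rfl fun k _ => Finset.sum_congr rfl fun l _ => ?_
  ring

theorem T_iter_XV (D : Derivation ℤ F F) (B : Matrix (Fin n) (Fin n) F)
    (T : Derivation ℤ (MvPolynomial (Fin m × Fin n) F) (MvPolynomial (Fin m × Fin n) F))
    (hC : ∀ c, T (MvPolynomial.C c) = MvPolynomial.C (D c))
    (hX : ∀ s : Fin m × Fin n, T (MvPolynomial.X s) =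
      ∑ l, MvPolynomial.X (s.1, l) * MvPolynomial.C (B l s.2)) (i : Fin m) (q : ℕ)
    (v : Fin n → F) : (⇑T)^[q] (XV i v) = XV i ((nab D B)^[q] v) := by
  induction q with
  | zero => rfl
  | succ q ih =>
    rw [Function.iterate_succ_apply', ih, T_XV D B T hC hX, Function.iterate_succ_apply']

theorem X_eq_XV (i : Fin m) (j : Fin n) :
    (MvPolynomial.X (i, j) : MvPolynomial (Fin m × Fin n) F) = XV i (Pi.single j 1) := by
  unfold XV
  rw [Finset.sum_eq_single j]
  · rw [Pi.single_eq_same, map_one, mul_one]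
  · intro b _ hb
    rw [Pi.single_eq_of_ne hb, map_zero, mul_zero]
  · intro h; exact absurd (Finset.mem_univ _) h

end poly

/-- Package N3. -/
theorem poly : S_Poly := by
  intro F _ p _ _ D hD m n B T hC hX G
  have hp : p.Prime := Fact.out
  let R := MvPolynomial (Fin m × Fin n) F
  have hchar : ∀ w : R, p • w = 0 := fun w => by
    rw [nsmul_eq_mul, CharP.cast_eq_zero, zero_mul]
  have h0 : (⇑T)^[p] 0 = 0 :=
    Pool.Agent.Helper12.BM.iterate_zero' (⇑T) (map_zero T) p
  have hadd : ∀ x y, (⇑T)^[p] (x + y) = (⇑T)^[p] x + (⇑T)^[p] y :=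
    Pool.Agent.Helper12.BM.iterate_add' (⇑T) (map_add T) p
  have hmul : ∀ x y : R, (⇑T)^[p] (x * y) = (⇑T)^[p] x * y + x * (⇑T)^[p] y := by
    intro x y
    refine Pool.Agent.Helper12.BM.leib_p p hp hchar (⇑T) (⇑T) (⇑T) (map_zero T) (map_add T)
      (fun x y : R => x * y) (fun u v => ?_) x y
    change T (u * v) = T u * v + u * T v
    rw [Derivation.leibniz, smul_eq_mul, smul_eq_mul]
    ring
  have hCn : ∀ (q : ℕ) (c : F), (⇑T)^[q] (MvPolynomial.C c) = MvPolynomial.C ((⇑D)^[q] c) := by
    intro q
    induction q with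
    | zero => intro c; rfl
    | succ q ih =>
      intro c
      rw [Function.iterate_succ_apply, hC, ih, Function.iterate_succ_apply]
  have hXp : ∀ s : Fin m × Fin n, (⇑T)^[p] (MvPolynomial.X s) =
      ∑ l, MvPolynomial.X (s.1, l) * MvPolynomial.C (pcv D B p l s.2) := by
    rintro ⟨i, j⟩
    rw [X_eq_XV, T_iter_XV D B T hC hX]
    rfl
  induction G using MvPolynomial.induction_on with
  | C a =>
    rw [hCn, hD, map_zero]
    symm
    apply Finset.sum_eq_zero
    intro s _
    rw [MvPolynomial.pderiv_C, mul_zero]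
  | add P Q hP hQ =>
    rw [hadd, hP, hQ, ← Finset.sum_add_distrib]
    refine Finset.sum_congr rfl fun s _ => ?_
    rw [map_add, mul_add]
  | mul_X P s hP =>
    rw [hmul, hP, hXp]
    have h1 : ∀ s' : Fin m × Fin n, MvPolynomial.pderiv s' (P * MvPolynomial.X s) =
        MvPolynomial.pderiv s' P * MvPolynomial.X s + P * (if s' = s then 1 else 0) := by
      intro s'
      rw [Derivation.leibniz, smul_eq_mul, smul_eq_mul]
      by_cases h : s' = s
      · subst h
        rw [MvPolynomial.pderiv_X_self, if_pos rfl]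
        ring
      · rw [MvPolynomial.pderiv_X_of_ne (Ne.symm h), if_neg h]
        ring
    simp only [h1, mul_add, Finset.sum_add_distrib]
    congr 1
    · rw [Finset.sum_mul]
      refine Finset.sum_congr rfl fun s' _ => ?_
      ring
    · rw [Finset.sum_eq_single s]
      · rw [if_pos rfl]; ring
      · intro b _ hb
        rw [if_neg hb]; ring
      · intro h; exact absurd (Finset.mem_univ _) h

end Pool.Agent.Helper90.BM
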